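import Mathlib
import Pool.Agent.Work.MP_e9f444_mp.Defs
import Pool.Agent.Work.MP_e9f444_mp.Assemble

/-!
# Finite-energy gravitating Abelian Higgs strings beyond the symmetric bound

Prescribe points `p 0, …, p (N-1)` of the plane, repetitions allowed, such that the multiplicity `n`
of every point satisfies `4 π ε² G n < 1`. Then the coupled Einstein and Abelian Higgs equations
have a smooth finite-energy solution whose Higgs field has exactly the zeros `p i`. There is no
upper bound on the total string number `N`: if `4 π ε² G < 1`, then every `N`, in particular every
`N ≥ 1 / (2 π ε² G)`, and any `N` distinct points are allowed.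
-/

set_option autoImplicit false

open Pool.Agent.Work.MP_e9f444_mp

namespace Pool.Agent.Results.MP_e9f444_mp.FiniteEnergyStrings

/-- Existence of finite-energy `N`-string solutions for arbitrary `N`, with strings at arbitrary
prescribed points, provided that the multiplicity `n` of each point satisfies `4 π ε² G n < 1`
(for distinct points: `4 π ε² G < 1`). -/
theorem result (ε G : ℝ) (hε : 0 < ε) (hG : 0 < G) (N : ℕ) (hN : 1 ≤ N) (p : Fin N → ℂ)
    (hp : ∀ i, 4 * Real.pi * ε ^ 2 * G * (Finset.univ.filter fun j => p j = p i).card < 1) :
    ExistsStrings ε G p :=
  exists_strings ε G hε hG N hN p hp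

end Pool.Agent.Results.MP_e9f444_mp.FiniteEnergyStrings
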